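import Pool.Agent.H437.WM.Prc
import Pool.Agent.H437.WM.Dyc
import Pool.Graph.R_pool_sql_team_seeded_3997aac3.Q279.MC.J.FP

/-!
# Weak Manin for all birational models of projective space, in a neighbourhood of `O(1)`

Let `K` be a number field and let `f_i = (f_{i,j})_j` be finitely many systems of forms of degree
`m_i` in `n + 1` variables over `K`, each without common factor.  For all real `α > 0` and
`β_i ≥ 0` the number of the points `p` of projective space over `K` outside of the base loci with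
`H(p) ^ α ∏ H(f_i(p)) ^ β_i ≤ T` is `O(T ^ (a + ε))`, where `a` is the maximum of
`(n + 1) / (α + ∑ m_i β_i)` and `n / α`.  The maximum is `(n + 1) / (α + ∑ m_i β_i)` if
`n ∑ m_i β_i ≤ α`.
-/

set_option autoImplicit false

open scoped LinearAlgebra.Projectivization

namespace Pool.Agent.Results.MP_18ea5f_nt.ModelsOfProjectiveSpace

/-- The number of the points of `S` of height `h` at most `T` is finite and `O(T ^ (a + ε))` for
every `ε > 0`. -/
def HasExponent {P : Type} (S : Set P) (h : P → ℝ) (a : ℝ) : Prop :=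
  ∀ ε : ℝ, 0 < ε → ∃ C : ℝ, ∀ T : ℝ, 1 ≤ T →
    {p | p ∈ S ∧ h p ≤ T}.Finite ∧ ({p | p ∈ S ∧ h p ≤ T}.ncard : ℝ) ≤ C * T ^ (a + ε)

/-- The elements `f j` have no common divisor except units. -/
def NoCommonFactor {A J : Type} [CommRing A] (f : J → A) : Prop :=
  ∀ g : A, (∀ j, g ∣ f j) → IsUnit g

section

variable {K : Type} [Field K] [NumberField K] {n : ℕ} {ι : Type} [Fintype ι] {k : ι → ℕ}

/-- The points at which for every `i` not all `f i j` vanish. -/
def domain (f : ∀ i, Fin (k i) → MvPolynomial (Fin (n + 1)) K) : Set (ℙ K (Fin (n + 1) → K)) :=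
  {p | ∀ i, ∃ j, MvPolynomial.eval p.rep (f i j) ≠ 0}

/-- The height `H(p) ^ α * ∏ H(f_i(p)) ^ β_i`. -/
noncomputable def height (f : ∀ i, Fin (k i) → MvPolynomial (Fin (n + 1)) K) (α : ℝ) (β : ι → ℝ)
    (p : ℙ K (Fin (n + 1) → K)) : ℝ :=
  p.mulHeight ^ α * ∏ i, Height.mulHeight (fun j => MvPolynomial.eval p.rep (f i j)) ^ β i

open Pool.Agent.H437.WM in
theorem upper (m : ι → ℕ) (hm : ∀ i, 1 ≤ m i)
    (f : ∀ i, Fin (k i) → MvPolynomial (Fin (n + 1)) K)
    (hhom : ∀ i j, (f i j).IsHomogeneous (m i)) (hf : ∀ i, NoCommonFactor (f i))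
    (α : ℝ) (hα : 0 < α) (β : ι → ℝ) (hβ : ∀ i, 0 ≤ β i) :
    HasExponent (domain f) (height f α β)
      (max (((n : ℝ) + 1) / (α + ∑ i, m i * β i)) (n / α)) := by
  intro ε hε
  obtain ⟨C, hC⟩ := Pool.Agent.Q279.MC.JFP.main K (n + 1)
  refine dyc n (fun p : ℙ K (Fin (n + 1) → K) => p.mulHeight)
    (fun i p => Height.mulHeight (fun j => MvPolynomial.eval p.rep (f i j))) m hm (domain f)
    (fun p => ?_) (fun i p => Height.one_le_mulHeight _) ?_ ?_ α hα β hβ ε hε
  · rw [← p.mk_rep, Projectivization.mulHeight_mk]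
    exact Height.one_le_mulHeight _
  · refine ⟨max C 0, le_max_right _ _, fun B hB => ?_⟩
    obtain ⟨h1, h2⟩ := hC B hB
    refine ⟨h1, h2.trans ?_⟩
    rw [Real.rpow_natCast]
    have : (0 : ℝ) ≤ B ^ (n + 1) := by positivity
    exact mul_le_mul_of_nonneg_right (le_max_left _ _) this
  · intro i ε hε
    obtain ⟨C, hC, h⟩ := prc (hm i) (f i) (hf i) (hhom i) ε hε
    refine ⟨C, hC, fun B M hB hM => ?_⟩
    obtain ⟨h1, h2⟩ := h B M hB hM
    have hsub : {p : ℙ K (Fin (n + 1) → K) | p ∈ domain f ∧ p.mulHeight ≤ B ∧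
        Height.mulHeight (fun j => MvPolynomial.eval p.rep (f i j)) * M ^ m i ≤ B ^ m i} ⊆
        SetC (f i) (m i) B M := fun p hp => ⟨hp.2.1, hp.1 i, hp.2.2⟩
    refine ⟨h1.subset hsub, le_trans ?_ h2⟩
    exact_mod_cast Set.ncard_le_ncard hsub h1

/-- **The result.** -/
theorem result (m : ι → ℕ) (hm : ∀ i, 1 ≤ m i)
    (f : ∀ i, Fin (k i) → MvPolynomial (Fin (n + 1)) K)
    (hhom : ∀ i j, (f i j).IsHomogeneous (m i)) (hf : ∀ i, NoCommonFactor (f i))
    (α : ℝ) (hα : 0 < α) (β : ι → ℝ) (hβ : ∀ i, 0 ≤ β i) :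
    HasExponent (domain f) (height f α β)
      (max (((n : ℝ) + 1) / (α + ∑ i, m i * β i)) (n / α)) ∧
    (n * ∑ i, m i * β i ≤ α →
      HasExponent (domain f) (height f α β) (((n : ℝ) + 1) / (α + ∑ i, m i * β i))) := by
  have h := upper m hm f hhom hf α hα β hβ
  refine ⟨h, fun hc => ?_⟩
  have hμ : 0 ≤ ∑ i, m i * β i := Finset.sum_nonneg fun i _ => mul_nonneg (Nat.cast_nonneg _) (hβ i)
  have hle : (n : ℝ) / α ≤ ((n : ℝ) + 1) / (α + ∑ i, m i * β i) := by
    rw [div_le_div_iff₀ hα (by linarith)]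
    linarith
  rwa [max_eq_left hle] at h

end

end Pool.Agent.Results.MP_18ea5f_nt.ModelsOfProjectiveSpace
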